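import Pool.Agent.Helper57.SN.Top

/-!
# A power saving for partial sums of polynomials bounded on the unit circle

`P(z) = ∑ a_k z^{m_k}` has `N` terms and `|P| ≤ 1` on the unit circle.  Fix a cut `n` and two unit
complex numbers `z, w`, and give the term `a_k z^{m_k}` the real number
`c_k = Re (a_k z^{m_k} conj w)` if it lies below the cut and `c_k = - Re (a_k z^{m_k} conj w)` if it
lies above it.  So `Re (P_n(z) conj w)` is the sum of the `c_k` over the terms below the cut.

The theorem: `∑ |c_k| ≤ C (1 + V) N^{1/2 - 1/8000}` where `V` is the total mass of the negative `c_k`.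
In particular, if `V = 0` (in the frame `z, w` the coefficients change sign exactly at the cut), then
`Re (P_n(z) conj w) ≤ C N^{1/2 - 1/8000}`.
-/

set_option autoImplicit false

open Finset

namespace Pool.Agent.Results.MP_9a0a6c_an.PowerSavingOneSign

/-- the real part of the `k`-th term `a_k z^{m_k}` in the direction `w`, with the sign `+` if the
term is below the cut `n` (one of the first `n` terms) and `-` otherwise -/
noncomputable def cutCoeff {N : ℕ} (a : Fin N → ℂ) (m : Fin N → ℕ) (n : ℕ) (z w : ℂ) (k : Fin N) : ℝ :=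
  if (k : ℕ) < n then (a k * z ^ m k * (starRingEnd ℂ) w).re
  else -(a k * z ^ m k * (starRingEnd ℂ) w).re

/-- an odd integer `D` separating the doubled exponents below the cut from those above it -/
lemma exists_cut {N : ℕ} (m : Fin N → ℕ) (hm : StrictMono m) (n : ℕ) :
    ∃ D : ℤ, (∀ k : Fin N, (k : ℕ) < n → 2 * (m k : ℤ) < D) ∧
      (∀ k : Fin N, ¬ (k : ℕ) < n → D < 2 * (m k : ℤ)) := by
  by_cases h : ∃ k : Fin N, (k : ℕ) < n
  · obtain ⟨k0, hk0⟩ := h
    have hne : (univ.filter (fun k : Fin N => (k : ℕ) < n)).Nonempty := ⟨k0, by simp [hk0]⟩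
    obtain ⟨k1, hk1, hmax⟩ := exists_max_image _ (fun k : Fin N => (k : ℕ)) hne
    have hk1' : (k1 : ℕ) < n := by simpa using hk1
    refine ⟨2 * (m k1 : ℤ) + 1, ?_, ?_⟩
    · intro k hk
      have h1 : (k : ℕ) ≤ k1 := hmax k (by simp [hk])
      have h2 : m k ≤ m k1 := hm.monotone (by exact_mod_cast h1)
      have : (m k : ℤ) ≤ m k1 := by exact_mod_cast h2
      linarith
    · intro k hk
      have h1 : (k1 : ℕ) < k := lt_of_lt_of_le hk1' (not_lt.mp hk)
      have h2 : m k1 < m k := hm (by exact_mod_cast h1)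
      have : (m k1 : ℤ) + 1 ≤ m k := by exact_mod_cast h2
      linarith
  · push Not at h
    refine ⟨-1, ?_, ?_⟩
    · intro k hk
      exact absurd hk (not_lt.mpr (h k))
    · intro k _
      have : (0 : ℤ) ≤ m k := by positivity
      linarith

/-- the odd part of the rotated polynomial: a sine polynomial bounded by one -/
lemma sine_bound {N : ℕ} (a : Fin N → ℂ) (m : Fin N → ℕ)
    (hP : ∀ z : ℂ, ‖z‖ = 1 → ‖∑ k, a k * z ^ m k‖ ≤ 1) (z w : ℂ) (hz : ‖z‖ = 1) (hw : ‖w‖ = 1)
    (D : ℤ) (x : ℝ) :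
    |∑ k, (a k * z ^ m k * (starRingEnd ℂ) w).re * Real.sin (((2 * (m k : ℤ) - D : ℤ) : ℝ) * x)| ≤ 1 := by
  have key : ∀ y : ℝ, ‖∑ k, a k * z ^ m k * (starRingEnd ℂ) w *
      Complex.exp ((((2 * (m k : ℤ) - D : ℤ) : ℝ) * y : ℝ) * Complex.I)‖ ≤ 1 := by
    intro y
    have e1 : ∀ k : Fin N, a k * z ^ m k * (starRingEnd ℂ) w *
        Complex.exp ((((2 * (m k : ℤ) - D : ℤ) : ℝ) * y : ℝ) * Complex.I)
        = ((starRingEnd ℂ) w * Complex.exp (((-(D : ℝ)) * y : ℝ) * Complex.I)) *
          (a k * (z * Complex.exp (((2 : ℝ) * y : ℝ) * Complex.I)) ^ m k) := by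
      intro k
      rw [mul_pow, ← Complex.exp_nat_mul]
      have : Complex.exp ((((2 * (m k : ℤ) - D : ℤ) : ℝ) * y : ℝ) * Complex.I)
          = Complex.exp (((-(D : ℝ)) * y : ℝ) * Complex.I) *
            Complex.exp ((m k : ℂ) * ((((2 : ℝ) * y : ℝ) : ℂ) * Complex.I)) := by
        rw [← Complex.exp_add]
        congr 1
        push_cast
        ring
      rw [this]
      ring
    rw [sum_congr rfl (fun k _ => e1 k), ← mul_sum, norm_mul, norm_mul, RCLike.norm_conj, hw,
      Complex.norm_exp_ofReal_mul_I]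
    simp only [one_mul]
    refine hP _ ?_
    rw [norm_mul, hz, Complex.norm_exp_ofReal_mul_I, one_mul]
  have h1 := key x
  have h2 := key (-x)
  set t : Fin N → ℂ := fun k => a k * z ^ m k * (starRingEnd ℂ) w with ht
  set f : Fin N → ℝ := fun k => ((2 * (m k : ℤ) - D : ℤ) : ℝ) with hf
  have h3 : (∑ k, t k * Complex.exp (((f k * x : ℝ) : ℂ) * Complex.I))
      - (∑ k, t k * Complex.exp (((f k * (-x) : ℝ) : ℂ) * Complex.I))
      = 2 * Complex.I * ∑ k, t k * ((Real.sin (f k * x) : ℝ) : ℂ) := by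
    rw [← sum_sub_distrib, mul_sum]
    refine sum_congr rfl (fun k _ => ?_)
    rw [Complex.exp_mul_I, Complex.exp_mul_I, ← Complex.ofReal_cos, ← Complex.ofReal_cos,
      ← Complex.ofReal_sin, ← Complex.ofReal_sin]
    rw [mul_neg, Real.cos_neg, Real.sin_neg]
    push_cast
    ring
  have h4 : ‖2 * Complex.I * ∑ k, t k * ((Real.sin (f k * x) : ℝ) : ℂ)‖ ≤ 1 + 1 := by
    rw [← h3]
    exact (norm_sub_le _ _).trans (add_le_add h1 h2)
  have h5 : ‖∑ k, t k * ((Real.sin (f k * x) : ℝ) : ℂ)‖ ≤ 1 := by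
    rw [norm_mul, norm_mul, Complex.norm_I] at h4
    simp only [Complex.norm_ofNat, mul_one] at h4
    linarith
  have h6 : ∑ k, (t k).re * Real.sin (f k * x) = (∑ k, t k * ((Real.sin (f k * x) : ℝ) : ℂ)).re := by
    rw [Complex.re_sum]
    refine sum_congr rfl (fun k _ => ?_)
    rw [Complex.re_mul_ofReal]
  rw [h6]
  exact (Complex.abs_re_le_norm _).trans h5

/-- **Theorem.**  For every polynomial `P` with `N` terms bounded by one on the unit circle, every cut
`n` and all unit `z, w`, the terms `c_k` (real parts in the direction `w` of the terms at `z`, counted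
negatively above the cut) satisfy
`Re (P_n(z) conj w) ≤ ∑ |c_k| ≤ C (1 + V) N^{1/2 - 1/8000}`, `V` = the sum of the negative parts. -/
theorem result : ∃ C : ℝ, 0 < C ∧ ∀ (N : ℕ) (a : Fin N → ℂ) (m : Fin N → ℕ), 1 ≤ N → StrictMono m →
    (∀ z : ℂ, ‖z‖ = 1 → ‖∑ k, a k * z ^ m k‖ ≤ 1) →
    ∀ (n : ℕ) (z w : ℂ), ‖z‖ = 1 → ‖w‖ = 1 →
      ((∑ k ∈ univ.filter (fun k : Fin N => (k : ℕ) < n), a k * z ^ m k) * (starRingEnd ℂ) w).re ≤ ∑ k, |cutCoeff a m n z w k| ∧
      ∑ k, |cutCoeff a m n z w k| ≤
        C * (1 + ∑ k, max (-(cutCoeff a m n z w k)) 0) * (N : ℝ) ^ ((1 : ℝ) / 2 - 1 / 8000) := by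
  obtain ⟨N0, hN0, hmain⟩ := Pool.Agent.Helper57.SN.sine_large
  have hN0r : (1 : ℝ) ≤ N0 := by exact_mod_cast hN0
  refine ⟨(N0 : ℝ) ^ ((1 : ℝ) / 2 - 1 / 8000) + 1, by positivity, ?_⟩
  intro N a m hN hm hP n z w hz hw
  have hNr : (1 : ℝ) ≤ N := by exact_mod_cast hN
  set c : Fin N → ℝ := cutCoeff a m n z w with hc
  set p : ℝ := (1 : ℝ) / 2 - 1 / 8000 with hp
  have hp0 : 0 ≤ p := by rw [hp]; norm_num
  set V : ℝ := ∑ k, max (-(c k)) 0 with hV
  have hV0 : 0 ≤ V := sum_nonneg (fun k _ => le_max_right _ _)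
  constructor
  · rw [sum_mul, Complex.re_sum]
    calc ∑ k ∈ univ.filter (fun k : Fin N => (k : ℕ) < n), (a k * z ^ m k * (starRingEnd ℂ) w).re
        ≤ ∑ k ∈ univ.filter (fun k : Fin N => (k : ℕ) < n), |c k| := by
          refine sum_le_sum (fun k hk => ?_)
          have hk' : (k : ℕ) < n := by simpa using hk
          have : c k = (a k * z ^ m k * (starRingEnd ℂ) w).re := by
            simp [hc, cutCoeff, hk']
          rw [this]
          exact le_abs_self _
      _ ≤ ∑ k, |c k| := sum_le_sum_of_subset_of_nonneg (filter_subset _ _) (fun _ _ _ => abs_nonneg _)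
  · obtain ⟨D, hD1, hD2⟩ := exists_cut m hm n
    set f : Fin N → ℤ := fun k => 2 * (m k : ℤ) - D with hf
    have hsin : ∀ x : ℝ, |∑ k, c k * Real.sin (((f k).natAbs : ℝ) * x)| ≤ 1 := by
      intro x
      have h := sine_bound a m hP z w hz hw D x
      have e : ∀ k : Fin N, (a k * z ^ m k * (starRingEnd ℂ) w).re * Real.sin (((2 * (m k : ℤ) - D : ℤ) : ℝ) * x)
          = -(c k * Real.sin (((f k).natAbs : ℝ) * x)) := by
        intro k
        by_cases hk : (k : ℕ) < n
        · have hc1 : c k = (a k * z ^ m k * (starRingEnd ℂ) w).re := by simp [hc, cutCoeff, hk]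
          have hneg : f k < 0 := by
            have := hD1 k hk
            simp only [hf]
            linarith
          have e3 : (((f k).natAbs : ℝ)) = -((f k : ℤ) : ℝ) := by
            rw [Nat.cast_natAbs, abs_of_neg hneg, Int.cast_neg]
          rw [hc1, e3, neg_mul, Real.sin_neg]
          simp only [hf]
          ring
        · have hc1 : c k = -(a k * z ^ m k * (starRingEnd ℂ) w).re := by simp [hc, cutCoeff, hk]
          have hpos : 0 < f k := by
            have := hD2 k hk
            simp only [hf]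
            linarith
          have e3 : (((f k).natAbs : ℝ)) = ((f k : ℤ) : ℝ) := by
            rw [Nat.cast_natAbs, abs_of_pos hpos]
          rw [hc1, e3]
          simp only [hf]
          ring
      rw [sum_congr rfl (fun k _ => e k), sum_neg_distrib, abs_neg] at h
      exact h
    -- the positive part
    have hfpos : ∀ k, 1 ≤ (f k).natAbs := by
      intro k
      have : f k ≠ 0 := by
        by_cases hk : (k : ℕ) < n
        · have := hD1 k hk
          simp only [hf]
          omega
        · have := hD2 k hk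
          simp only [hf]
          omega
      omega
    set q : Fin N → ℝ := fun k => max (c k) 0 / (1 + V) with hq
    have hq0 : ∀ k, 0 ≤ q k := fun k => div_nonneg (le_max_right _ _) (by linarith)
    have hqsin : ∀ x : ℝ, |∑ k, q k * Real.sin (((f k).natAbs : ℝ) * x)| ≤ 1 := by
      intro x
      have e : ∑ k, q k * Real.sin (((f k).natAbs : ℝ) * x)
          = (∑ k, c k * Real.sin (((f k).natAbs : ℝ) * x)
            + ∑ k, max (-(c k)) 0 * Real.sin (((f k).natAbs : ℝ) * x)) / (1 + V) := by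
        rw [← sum_add_distrib, sum_div]
        refine sum_congr rfl (fun k _ => ?_)
        simp only [hq]
        have : max (c k) 0 = c k + max (-(c k)) 0 := by
          rcases le_total (c k) 0 with h | h
          · rw [max_eq_right h, max_eq_left (by linarith)]; ring
          · rw [max_eq_left h, max_eq_right (by linarith)]; ring
        rw [this]
        ring
      rw [e, abs_div, abs_of_pos (by linarith : (0 : ℝ) < 1 + V), div_le_one (by linarith)]
      refine (abs_add_le _ _).trans (add_le_add (hsin x) ?_)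
      refine (abs_sum_le_sum_abs _ _).trans (sum_le_sum (fun k _ => ?_))
      rw [abs_mul, abs_of_nonneg (le_max_right _ _)]
      exact mul_le_of_le_one_right (le_max_right _ _) (Real.abs_sin_le_one _)
    -- group by frequency
    set Ω : Finset ℕ := univ.image (fun k : Fin N => (f k).natAbs) with hΩ
    set b : ℕ → ℝ := fun ω => ∑ k with (f k).natAbs = ω, q k with hb
    have hΩcard : Ω.card ≤ max N N0 := by
      refine le_trans (card_image_le) (le_trans ?_ (le_max_left _ _))
      simp
    have hmaps : ∀ k ∈ (univ : Finset (Fin N)), (f k).natAbs ∈ Ω := fun k _ => by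
      rw [hΩ]; exact mem_image_of_mem _ (mem_univ _)
    have hgroup : ∀ x : ℝ, ∑ ω ∈ Ω, b ω * Real.sin (ω * x) = ∑ k, q k * Real.sin (((f k).natAbs : ℝ) * x) := by
      intro x
      rw [← sum_fiberwise_of_maps_to hmaps (fun k => q k * Real.sin (((f k).natAbs : ℝ) * x))]
      refine sum_congr rfl (fun ω _ => ?_)
      simp only [hb]
      rw [sum_mul]
      refine sum_congr rfl (fun k hk => ?_)
      have : (f k).natAbs = ω := by simpa using hk
      rw [this]
    have hsumb : ∑ ω ∈ Ω, b ω = ∑ k, q k := by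
      rw [← sum_fiberwise_of_maps_to hmaps (fun k => q k)]
    have hfin := hmain (max N N0) (le_max_right _ _) Ω b hΩcard
      (fun ω hω => by
        rw [hΩ, mem_image] at hω
        obtain ⟨k, _, rfl⟩ := hω
        exact hfpos k)
      (fun ω _ => sum_nonneg (fun k _ => hq0 k))
      (fun x => by rw [hgroup x]; exact hqsin x)
    rw [hsumb] at hfin
    -- assemble
    have hmaxle : ((max N N0 : ℕ) : ℝ) ≤ (N0 : ℝ) * N := by
      push_cast
      refine max_le ?_ ?_
      · nlinarith
      · nlinarith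
    have hpw : ((max N N0 : ℕ) : ℝ) ^ p ≤ (N0 : ℝ) ^ p * (N : ℝ) ^ p := by
      rw [← Real.mul_rpow (by positivity) (by positivity)]
      exact Real.rpow_le_rpow (by positivity) hmaxle hp0
    have hNp : (1 : ℝ) ≤ (N : ℝ) ^ p := Real.one_le_rpow hNr hp0
    have hsumq : ∑ k, q k = (∑ k, max (c k) 0) / (1 + V) := by
      simp only [hq]
      rw [sum_div]
    have h7 : ∑ k, max (c k) 0 ≤ (1 + V) * ((N0 : ℝ) ^ p * (N : ℝ) ^ p) := by
      have := hfin.trans hpw
      rw [hsumq, div_le_iff₀ (by linarith)] at this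
      linarith
    have h8 : ∑ k, |c k| = ∑ k, max (c k) 0 + V := by
      rw [hV, ← sum_add_distrib]
      refine sum_congr rfl (fun k _ => ?_)
      rcases le_total (c k) 0 with h | h
      · rw [max_eq_right h, max_eq_left (by linarith), abs_of_nonpos h]; ring
      · rw [max_eq_left h, max_eq_right (by linarith), abs_of_nonneg h]; ring
    rw [h8]
    have h9 : V ≤ (1 + V) * (N : ℝ) ^ p := by nlinarith
    calc ∑ k, max (c k) 0 + V ≤ (1 + V) * ((N0 : ℝ) ^ p * (N : ℝ) ^ p) + (1 + V) * (N : ℝ) ^ p := by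
          linarith
      _ = ((N0 : ℝ) ^ p + 1) * (1 + V) * (N : ℝ) ^ p := by ring

end Pool.Agent.Results.MP_9a0a6c_an.PowerSavingOneSign
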