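import Pool.Agent.Helper56.OS.Top

/-!
# The trivial bound `√N` for partial sums of bounded polynomials is never sharp

`P(z) = ∑ a_k z^{m_k}` has `N` terms (arbitrary increasing exponents, arbitrary complex coefficients)
and `|P| ≤ 1` on the unit circle.  The trivial bound (Parseval and Cauchy–Schwarz) for the partial
sums is `√N`.

The theorem: every partial sum satisfies `|P_n(z)| ≤ C √N / log log N` on the unit circle, with an
absolute constant `C`.  In other words `M(N) ≤ C √N / log log N`, in particular `M(N) = o(√N)`.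
-/

set_option autoImplicit false

open Finset

namespace Pool.Agent.Results.MP_9a0a6c_an.SqrtOverLogLog

/-- **Theorem.**  There is an absolute constant `C` such that for every `N ≥ 3`, every polynomial
`P(z) = ∑_{k < N} a_k z^{m_k}` with `m_0 < m_1 < …` and `|P| ≤ 1` on the unit circle, and every `n`, the
sum of the `n` terms of lowest degree is at most `C √N / log log N` in absolute value at every point
of the unit circle. -/
theorem result : ∃ C : ℝ, 0 < C ∧ ∀ (N : ℕ), 3 ≤ N → ∀ (a : Fin N → ℂ) (m : Fin N → ℕ),
    StrictMono m → (∀ z : ℂ, ‖z‖ = 1 → ‖∑ k, a k * z ^ m k‖ ≤ 1) →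
    ∀ (n : ℕ) (z : ℂ), ‖z‖ = 1 →
      ‖∑ k ∈ univ.filter (fun k : Fin N => (k : ℕ) < n), a k * z ^ m k‖ ≤
        C * Real.sqrt N / Real.log (Real.log N) :=
  Pool.Agent.Helper56.OS.red Pool.Agent.Helper56.OS.t_TOP

end Pool.Agent.Results.MP_9a0a6c_an.SqrtOverLogLog
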