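import Mathlib

/-!
# The exact value `M(3) = 2/√3`

`M(N)` is the supremum of the norms `‖P_n‖` of the partial sums of polynomials `P` with exactly `N`
terms and `|P| ≤ 1` on the unit circle.  We show that for `N = 3` it equals `2/√3` and is attained,
for example by `P(z) = (2 + 4 z - z ^ 2)/(3 √3)`, `n = 2`, `z = 1`.

Upper bound: after a rotation `P(w) = A + B w ^ p + c w ^ q` with `A = |a_0|`, `B = |a_1|`.
If `p ∣ q`, `q = k p`, put `β = π/(4k-2)`; then
`2 cos β (A + B) = e^{-iβ} P(e^{2iβ/p}) + e^{iβ} P(e^{-2iβ/p})`, and `cos β ≥ cos (π/6)`.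
If `p` does not divide `q`, there is `u` with `u ^ p = 1` and `Re (u ^ q) ≤ -1/2`, and
`(A + B) (u ^ q - 1) = u ^ q P(1) - P(u)`.
-/

set_option autoImplicit false

open Finset

namespace Pool.Agent.Results.MP_9a0a6c_an.ThreeTerms

/-- the set of all values `|P_n(z)|`, `|z| = 1`, of partial sums of polynomials
`P(w) = ∑ a_k w ^ m_k` with exactly `N` terms bounded by one on the unit circle; its supremum is
`M(N)` -/
def cutNorms (N : ℕ) : Set ℝ :=
  {r | ∃ (a : Fin N → ℂ) (m : Fin N → ℕ) (n : ℕ) (z : ℂ), (∀ k, a k ≠ 0) ∧ StrictMono m ∧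
    (∀ w : ℂ, ‖w‖ = 1 → ‖∑ k, a k * w ^ m k‖ ≤ 1) ∧ 1 ≤ n ∧ n ≤ N ∧ ‖z‖ = 1 ∧
    r = ‖∑ k ∈ univ.filter (fun k : Fin N => (k : ℕ) < n), a k * z ^ m k‖}

/-- a root of unity `≠ 1` has a power with real part at most `-1/2` -/
lemma exists_pow_re (η : ℂ) (p : ℕ) (hp : 0 < p) (h1 : η ^ p = 1) (hne : η ≠ 1) :
    ∃ j : ℕ, (η ^ j).re ≤ -(1 / 2) := by
  have hnorm : ‖η‖ = 1 := Complex.norm_eq_one_of_pow_eq_one h1 hp.ne'
  have hnj : ∀ j : ℕ, ‖η ^ j‖ = 1 := fun j => by rw [norm_pow, hnorm, one_pow]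
  by_cases h2 : η ^ 2 = 1
  · refine ⟨1, ?_⟩
    have h3 : (η - 1) * (η + 1) = 0 := by linear_combination h2
    rcases mul_eq_zero.mp h3 with h | h
    · exact absurd (sub_eq_zero.mp h) hne
    · have : η = -1 := eq_neg_of_add_eq_zero_left h
      rw [this]
      norm_num
  · by_contra hcon
    push Not at hcon
    have hs1 : ∑ j ∈ range p, η ^ j = 0 := by
      have h := mul_neg_geom_sum η p
      rw [h1, sub_self] at h
      rcases mul_eq_zero.mp h with h | h
      · exact absurd (sub_eq_zero.mp h).symm hne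
      · exact h
    have hs2 : ∑ j ∈ range p, (η ^ 2) ^ j = 0 := by
      have h := mul_neg_geom_sum (η ^ 2) p
      rw [← pow_mul, mul_comm 2 p, pow_mul, h1, one_pow, sub_self] at h
      rcases mul_eq_zero.mp h with h | h
      · exact absurd (sub_eq_zero.mp h).symm h2
      · exact h
    have hr1 : ∑ j ∈ range p, (η ^ j).re = 0 := by
      rw [← Complex.re_sum, hs1, Complex.zero_re]
    have hr2 : ∑ j ∈ range p, ((η ^ 2) ^ j).re = 0 := by
      rw [← Complex.re_sum, hs2, Complex.zero_re]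
    have hsq : ∀ j : ℕ, (η ^ j).re ^ 2 = (1 + ((η ^ 2) ^ j).re) / 2 := by
      intro j
      have e : (η ^ 2) ^ j = η ^ j * η ^ j := by rw [← pow_mul, ← pow_add]; congr 1; ring
      have hn : (η ^ j).re ^ 2 + (η ^ j).im ^ 2 = 1 := by
        have := Complex.sq_norm (η ^ j)
        rw [hnj j, Complex.normSq_apply] at this
        nlinarith
      rw [e, Complex.mul_re]
      nlinarith
    have hsum : ∑ j ∈ range p, (1 - (η ^ j).re) * ((η ^ j).re + 1 / 2) = 0 := by
      have e : ∀ j : ℕ, (1 - (η ^ j).re) * ((η ^ j).re + 1 / 2)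
          = (1 / 2) * (η ^ j).re - (1 / 2) * ((η ^ 2) ^ j).re := by
        intro j
        have := hsq j
        nlinarith
      rw [sum_congr rfl (fun j _ => e j), sum_sub_distrib, ← mul_sum, ← mul_sum, hr1, hr2]
      ring
    have hre1 : ∀ j : ℕ, (η ^ j).re ≤ 1 := fun j => by
      have := Complex.re_le_norm (η ^ j)
      rwa [hnj j] at this
    have hnn : ∀ j ∈ range p, 0 ≤ (1 - (η ^ j).re) * ((η ^ j).re + 1 / 2) := by
      intro j _
      have := hcon j
      exact mul_nonneg (by linarith [hre1 j]) (by linarith)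
    have hp1 : 1 < p := by
      rcases Nat.lt_or_ge 1 p with h | h
      · exact h
      · have : p = 1 := by omega
        rw [this, pow_one] at h1
        exact absurd h1 hne
    have h0 := (sum_eq_zero_iff_of_nonneg hnn).mp hsum 1 (mem_range.mpr hp1)
    rw [pow_one] at h0
    have hc1 := hcon 1
    rw [pow_one] at hc1
    rcases mul_eq_zero.mp h0 with h | h
    · apply hne
      have hre : η.re = 1 := by linarith
      have him : η.im = 0 := by
        have := Complex.sq_norm η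
        rw [hnorm, Complex.normSq_apply, hre] at this
        nlinarith
      exact Complex.ext (by simp [hre]) (by simp [him])
    · linarith

/-- first case of the upper bound: `p` does not divide `q` -/
lemma bound_ndvd (A B : ℝ) (hA : 0 ≤ A) (hB : 0 ≤ B) (c : ℂ) (p q : ℕ) (hp : 0 < p)
    (hpq : ¬ p ∣ q) (h : ∀ w : ℂ, ‖w‖ = 1 → ‖(A : ℂ) + B * w ^ p + c * w ^ q‖ ≤ 1) :
    A + B ≤ 2 / Real.sqrt 3 := by
  set ζ : ℂ := Complex.exp (2 * Real.pi * Complex.I / p) with hζ
  have hprim : IsPrimitiveRoot ζ p := Complex.isPrimitiveRoot_exp p hp.ne'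
  have hη1 : (ζ ^ q) ^ p = 1 := by rw [← pow_mul, mul_comm, pow_mul, hprim.pow_eq_one, one_pow]
  have hηne : ζ ^ q ≠ 1 := fun h' => hpq ((hprim.pow_eq_one_iff_dvd q).mp h')
  obtain ⟨j, hj⟩ := exists_pow_re (ζ ^ q) p hp hη1 hηne
  set u : ℂ := ζ ^ j with hu
  have hup : u ^ p = 1 := by rw [hu, ← pow_mul, mul_comm, pow_mul, hprim.pow_eq_one, one_pow]
  have hun : ‖u‖ = 1 := Complex.norm_eq_one_of_pow_eq_one hup hp.ne'
  set v : ℂ := u ^ q with hv
  have hvre : v.re ≤ -(1 / 2) := by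
    have e : v = (ζ ^ q) ^ j := by rw [hv, hu, ← pow_mul, ← pow_mul, mul_comm]
    rw [e]; exact hj
  have hvn : ‖v‖ = 1 := by rw [hv, norm_pow, hun, one_pow]
  have h1 := h 1 norm_one
  have h2 := h u hun
  rw [one_pow, one_pow] at h1
  rw [hup, ← hv] at h2
  have key : ((A + B : ℝ) : ℂ) * (v - 1)
      = v * ((A : ℂ) + B * 1 + c * 1) - ((A : ℂ) + B * 1 + c * v) := by
    push_cast; ring
  have hle : (A + B) * ‖v - 1‖ ≤ 2 := by
    have h3 : ‖((A + B : ℝ) : ℂ) * (v - 1)‖ ≤ 2 := by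
      rw [key]
      refine (norm_sub_le _ _).trans ?_
      rw [norm_mul, hvn, one_mul]
      linarith
    rwa [norm_mul, Complex.norm_real, Real.norm_of_nonneg (by linarith)] at h3
  have hs3 : Real.sqrt 3 ≤ ‖v - 1‖ := by
    apply Real.sqrt_le_iff.mpr
    refine ⟨norm_nonneg _, ?_⟩
    rw [Complex.sq_norm, Complex.normSq_apply]
    have := Complex.sq_norm v
    rw [hvn, Complex.normSq_apply] at this
    simp only [Complex.sub_re, Complex.sub_im, Complex.one_re, Complex.one_im]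
    nlinarith
  have hpos : 0 < Real.sqrt 3 := Real.sqrt_pos.mpr (by norm_num)
  rw [le_div_iff₀ hpos]
  exact le_trans (mul_le_mul_of_nonneg_left hs3 (by linarith)) hle

/-- second case of the upper bound: `q = k p` -/
lemma bound_dvd (A B : ℝ) (hA : 0 ≤ A) (hB : 0 ≤ B) (c : ℂ) (p k : ℕ) (hp : 0 < p) (hk : 2 ≤ k)
    (h : ∀ w : ℂ, ‖w‖ = 1 → ‖(A : ℂ) + B * w ^ p + c * w ^ (p * k)‖ ≤ 1) :
    A + B ≤ 2 / Real.sqrt 3 := by
  have hk' : (2 : ℝ) ≤ k := by exact_mod_cast hk
  have hpc : (p : ℂ) ≠ 0 := by exact_mod_cast hp.ne'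
  set β : ℝ := Real.pi / (4 * k - 2) with hβ
  have hden : (0 : ℝ) < 4 * k - 2 := by linarith
  have hβ0 : 0 ≤ β := div_nonneg Real.pi_pos.le hden.le
  have hβ6 : β ≤ Real.pi / 6 := by
    rw [hβ]
    exact div_le_div_of_nonneg_left Real.pi_pos.le (by norm_num) (by linarith)
  have hkβ : (2 * k - 1 : ℝ) * β = Real.pi / 2 := by
    have h2k : (2 * (k : ℝ) - 1) ≠ 0 := by linarith
    rw [hβ, show (4 * (k : ℝ) - 2) = 2 * (2 * k - 1) by ring]
    field_simp
  have hcosβ : Real.sqrt 3 / 2 ≤ Real.cos β := by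
    rw [← Real.cos_pi_div_six]
    exact Real.cos_le_cos_of_nonneg_of_le_pi hβ0 (by linarith [Real.pi_pos]) hβ6
  -- the two points
  have hpt : ∀ s : ℝ, (s = 1 ∨ s = -1) →
      ‖(A : ℂ) + B * Complex.exp ((2 * s * β : ℝ) * Complex.I)
        + c * Complex.exp ((2 * s * k * β : ℝ) * Complex.I)‖ ≤ 1 := by
    intro s _
    have h1 := h (Complex.exp ((2 * s * β / p : ℝ) * Complex.I))
      (Complex.norm_exp_ofReal_mul_I _)
    have e1 : Complex.exp ((2 * s * β / p : ℝ) * Complex.I) ^ p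
        = Complex.exp ((2 * s * β : ℝ) * Complex.I) := by
      rw [← Complex.exp_nat_mul]
      congr 1
      push_cast
      field_simp
    have e2 : Complex.exp ((2 * s * β / p : ℝ) * Complex.I) ^ (p * k)
        = Complex.exp ((2 * s * k * β : ℝ) * Complex.I) := by
      rw [pow_mul, e1, ← Complex.exp_nat_mul]
      congr 1
      push_cast
      ring
    rwa [e1, e2] at h1
  have hP := hpt 1 (Or.inl rfl)
  have hM := hpt (-1) (Or.inr rfl)
  set X : ℂ := (A : ℂ) + B * Complex.exp ((2 * 1 * β : ℝ) * Complex.I)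
        + c * Complex.exp ((2 * 1 * k * β : ℝ) * Complex.I) with hX
  set Y : ℂ := (A : ℂ) + B * Complex.exp ((2 * (-1) * β : ℝ) * Complex.I)
        + c * Complex.exp ((2 * (-1) * k * β : ℝ) * Complex.I) with hY
  have key : ((2 * Real.cos β * (A + B) : ℝ) : ℂ)
      = Complex.exp ((-β : ℝ) * Complex.I) * X + Complex.exp ((β : ℝ) * Complex.I) * Y := by
    have f1 : Complex.exp ((-β : ℝ) * Complex.I) * Complex.exp ((2 * 1 * β : ℝ) * Complex.I)
        = Complex.exp ((β : ℝ) * Complex.I) := by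
      rw [← Complex.exp_add]; congr 1; push_cast; ring
    have f2 : Complex.exp ((β : ℝ) * Complex.I) * Complex.exp ((2 * (-1) * β : ℝ) * Complex.I)
        = Complex.exp ((-β : ℝ) * Complex.I) := by
      rw [← Complex.exp_add]; congr 1; push_cast; ring
    have f3 : Complex.exp ((-β : ℝ) * Complex.I) * Complex.exp ((2 * 1 * k * β : ℝ) * Complex.I)
        = Complex.I := by
      rw [← Complex.exp_add, ← add_mul, ← Complex.ofReal_add]
      have e : -β + 2 * 1 * k * β = Real.pi / 2 := by linarith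
      rw [e, Complex.exp_mul_I, ← Complex.ofReal_cos, ← Complex.ofReal_sin, Real.cos_pi_div_two,
        Real.sin_pi_div_two]
      simp
    have f4 : Complex.exp ((β : ℝ) * Complex.I) * Complex.exp ((2 * (-1) * k * β : ℝ) * Complex.I)
        = -Complex.I := by
      rw [← Complex.exp_add, ← add_mul, ← Complex.ofReal_add]
      have e : β + 2 * (-1) * k * β = -(Real.pi / 2) := by linarith
      rw [e, Complex.exp_mul_I, ← Complex.ofReal_cos, ← Complex.ofReal_sin, Real.cos_neg,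
        Real.sin_neg, Real.cos_pi_div_two, Real.sin_pi_div_two]
      simp
    have f5 : Complex.exp ((-β : ℝ) * Complex.I) + Complex.exp ((β : ℝ) * Complex.I)
        = ((2 * Real.cos β : ℝ) : ℂ) := by
      rw [Complex.exp_mul_I, Complex.exp_mul_I, ← Complex.ofReal_cos, ← Complex.ofReal_sin,
        ← Complex.ofReal_cos, ← Complex.ofReal_sin, Real.cos_neg, Real.sin_neg]
      push_cast
      ring
    have e1 : Complex.exp ((-β : ℝ) * Complex.I) * X + Complex.exp ((β : ℝ) * Complex.I) * Y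
        = A * (Complex.exp ((-β : ℝ) * Complex.I) + Complex.exp ((β : ℝ) * Complex.I))
          + B * (Complex.exp ((-β : ℝ) * Complex.I) * Complex.exp ((2 * 1 * β : ℝ) * Complex.I)
            + Complex.exp ((β : ℝ) * Complex.I) * Complex.exp ((2 * (-1) * β : ℝ) * Complex.I))
          + c * (Complex.exp ((-β : ℝ) * Complex.I) * Complex.exp ((2 * 1 * k * β : ℝ) * Complex.I)
            + Complex.exp ((β : ℝ) * Complex.I) * Complex.exp ((2 * (-1) * k * β : ℝ) * Complex.I)) := by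
      rw [hX, hY]
      ring
    rw [e1, f1, f2, f3, f4, add_comm (Complex.exp ((β : ℝ) * Complex.I)), f5]
    push_cast
    ring
  have hle : 2 * Real.cos β * (A + B) ≤ 2 := by
    have h3 : ‖((2 * Real.cos β * (A + B) : ℝ) : ℂ)‖ ≤ 1 + 1 := by
      rw [key]
      refine (norm_add_le _ _).trans (add_le_add ?_ ?_)
      · rw [norm_mul, Complex.norm_exp_ofReal_mul_I, one_mul]; exact hP
      · rw [norm_mul, Complex.norm_exp_ofReal_mul_I, one_mul]; exact hM
    rw [Complex.norm_real] at h3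
    linarith [le_abs_self (2 * Real.cos β * (A + B)), Real.norm_eq_abs (2 * Real.cos β * (A + B))]
  have hpos : 0 < Real.sqrt 3 := Real.sqrt_pos.mpr (by norm_num)
  rw [le_div_iff₀ hpos]
  nlinarith

/-- the upper bound for `|a_0| + |a_1|` -/
lemma bound_two (a0 a1 a2 : ℂ) (m0 m1 m2 : ℕ) (h01 : m0 < m1) (h12 : m1 < m2)
    (h : ∀ w : ℂ, ‖w‖ = 1 → ‖a0 * w ^ m0 + a1 * w ^ m1 + a2 * w ^ m2‖ ≤ 1) :
    ‖a0‖ + ‖a1‖ ≤ 2 / Real.sqrt 3 := by
  obtain ⟨p, rfl⟩ : ∃ p, m1 = m0 + p := ⟨m1 - m0, by omega⟩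
  obtain ⟨q, rfl⟩ : ∃ q, m2 = m0 + q := ⟨m2 - m0, by omega⟩
  have hp : 0 < p := by omega
  -- unit vectors
  have hunit : ∀ a : ℂ, ∃ α : ℂ, ‖α‖ = 1 ∧ a = ‖a‖ * α := by
    intro a
    by_cases ha : a = 0
    · exact ⟨1, norm_one, by simp [ha]⟩
    · have hn : (‖a‖ : ℂ) ≠ 0 := by exact_mod_cast (norm_ne_zero_iff.mpr ha)
      refine ⟨a / ‖a‖, ?_, by field_simp⟩
      rw [norm_div, Complex.norm_real, norm_norm, div_self (norm_ne_zero_iff.mpr ha)]
  obtain ⟨α0, hα0, ha0⟩ := hunit a0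
  obtain ⟨α1, hα1, ha1⟩ := hunit a1
  have hα0' : α0 ≠ 0 := by intro h0; rw [h0, norm_zero] at hα0; exact zero_ne_one hα0
  have hα1' : α1 ≠ 0 := by intro h0; rw [h0, norm_zero] at hα1; exact zero_ne_one hα1
  obtain ⟨z0, hz0⟩ := IsAlgClosed.exists_pow_nat_eq (α0 / α1) hp
  have hz0n : ‖z0‖ = 1 := by
    have h1 : ‖z0‖ ^ p = 1 := by rw [← norm_pow, hz0, norm_div, hα0, hα1, div_one]
    exact (pow_eq_one_iff_of_nonneg (norm_nonneg _) hp.ne').mp h1
  have hz0' : z0 ≠ 0 := by intro h0; rw [h0, norm_zero] at hz0n; exact zero_ne_one hz0n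
  set c : ℂ := a2 * z0 ^ q / α0 with hc
  have hQ : ∀ w : ℂ, ‖w‖ = 1 → ‖((‖a0‖ : ℝ) : ℂ) + (‖a1‖ : ℝ) * w ^ p + c * w ^ q‖ ≤ 1 := by
    intro w hw
    have h1 := h (z0 * w) (by rw [norm_mul, hz0n, hw, one_mul])
    have e : a0 * (z0 * w) ^ m0 + a1 * (z0 * w) ^ (m0 + p) + a2 * (z0 * w) ^ (m0 + q)
        = ((z0 * w) ^ m0 * α0) * (((‖a0‖ : ℝ) : ℂ) + (‖a1‖ : ℝ) * w ^ p + c * w ^ q) := by
      have e1 : (z0 * w) ^ (m0 + p) = (z0 * w) ^ m0 * (α0 / α1 * w ^ p) := by
        rw [pow_add, mul_pow z0 w p, hz0]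
      have e2 : (z0 * w) ^ (m0 + q) = (z0 * w) ^ m0 * (z0 ^ q * w ^ q) := by
        rw [pow_add, mul_pow z0 w q]
      rw [e1, e2, hc]
      nth_rewrite 1 [ha0]
      nth_rewrite 1 [ha1]
      field_simp
    rw [e, norm_mul, norm_mul, norm_pow, norm_mul, hz0n, hw, hα0, one_mul, one_pow, one_mul,
      one_mul] at h1
    exact h1
  by_cases hd : p ∣ q
  · obtain ⟨k, rfl⟩ := hd
    have hk : 2 ≤ k := by
      by_contra hcon
      have : k = 0 ∨ k = 1 := by omega
      rcases this with rfl | rfl <;> omega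
    exact bound_dvd _ _ (norm_nonneg _) (norm_nonneg _) c p k hp hk hQ
  · exact bound_ndvd _ _ (norm_nonneg _) (norm_nonneg _) c p q hp hd hQ

lemma one_le_const : (1 : ℝ) ≤ 2 / Real.sqrt 3 := by
  have hpos : 0 < Real.sqrt 3 := Real.sqrt_pos.mpr (by norm_num)
  rw [le_div_iff₀ hpos, one_mul]
  exact Real.sqrt_le_iff.mpr ⟨by norm_num, by norm_num⟩

lemma sum_filter_three (f : Fin 3 → ℂ) (n : ℕ) (hn : n = 1 ∨ n = 2 ∨ n = 3) :
    ∑ k ∈ univ.filter (fun k : Fin 3 => (k : ℕ) < n), f k =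
      if n = 1 then f 0 else if n = 2 then f 0 + f 1 else f 0 + f 1 + f 2 := by
  rw [sum_filter, Fin.sum_univ_three]
  rcases hn with rfl | rfl | rfl <;> simp

/-- the extremal polynomial -/
lemma extremal (w : ℂ) (hw : ‖w‖ = 1) : ‖2 + 4 * w - w ^ 2‖ ≤ 3 * Real.sqrt 3 := by
  have h1 : w.re ^ 2 + w.im ^ 2 = 1 := by
    have := Complex.sq_norm w
    rw [hw, Complex.normSq_apply] at this
    nlinarith
  have h2 : ‖2 + 4 * w - w ^ 2‖ ^ 2 ≤ (3 * Real.sqrt 3) ^ 2 := by
    rw [Complex.sq_norm, Complex.normSq_apply, mul_pow, Real.sq_sqrt (by norm_num)]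
    have e1 : (2 + 4 * w - w ^ 2).re = 3 + 4 * w.re - 2 * w.re ^ 2 := by
      simp [pow_two, Complex.mul_re]
      nlinarith
    have e2 : (2 + 4 * w - w ^ 2).im = w.im * (4 - 2 * w.re) := by
      simp [pow_two, Complex.mul_im]
      ring
    rw [e1, e2]
    have e3 : (3 + 4 * w.re - 2 * w.re ^ 2) * (3 + 4 * w.re - 2 * w.re ^ 2)
        + w.im * (4 - 2 * w.re) * (w.im * (4 - 2 * w.re)) = 25 + 8 * w.re - 8 * w.re ^ 2 := by
      have : w.im * (4 - 2 * w.re) * (w.im * (4 - 2 * w.re)) = (1 - w.re ^ 2) * (4 - 2 * w.re) ^ 2 := by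
        have : w.im ^ 2 = 1 - w.re ^ 2 := by linarith
        calc _ = w.im ^ 2 * (4 - 2 * w.re) ^ 2 := by ring
          _ = _ := by rw [this]
      rw [this]
      ring
    rw [e3]
    nlinarith [sq_nonneg (2 * w.re - 1)]
  exact (pow_le_pow_iff_left₀ (norm_nonneg _) (by positivity) (by norm_num)).mp h2

/-- **Theorem** (`M(3) = 2/√3`).  The largest modulus of a partial sum of a polynomial with three
terms that is bounded by one on the unit circle is `2/√3`. -/
theorem result : IsGreatest (cutNorms 3) (2 / Real.sqrt 3) := by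
  have hpos : 0 < Real.sqrt 3 := Real.sqrt_pos.mpr (by norm_num)
  constructor
  · refine ⟨fun k => if k = 0 then ((2 / (3 * Real.sqrt 3) : ℝ) : ℂ) else
        if k = 1 then ((4 / (3 * Real.sqrt 3) : ℝ) : ℂ) else ((-1 / (3 * Real.sqrt 3) : ℝ) : ℂ),
      fun k => (k : ℕ), 2, 1, ?_, ?_, ?_, by norm_num, by norm_num, norm_one, ?_⟩
    · intro k
      have h3 : (3 * Real.sqrt 3) ≠ 0 := by positivity
      fin_cases k
      · simp
      · simp
      · simp
    · intro i j hij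
      exact hij
    · intro w hw
      have h3 : ((3 * Real.sqrt 3 : ℝ) : ℂ) ≠ 0 := by
        exact_mod_cast (by positivity : (3 * Real.sqrt 3) ≠ 0)
      have e : ∑ k : Fin 3, (if k = 0 then ((2 / (3 * Real.sqrt 3) : ℝ) : ℂ) else
          if k = 1 then ((4 / (3 * Real.sqrt 3) : ℝ) : ℂ) else ((-1 / (3 * Real.sqrt 3) : ℝ) : ℂ))
            * w ^ (k : ℕ) = (2 + 4 * w - w ^ 2) / ((3 * Real.sqrt 3 : ℝ) : ℂ) := by
        rw [Fin.sum_univ_three]
        simp only [Fin.isValue, if_true, one_ne_zero, if_false, Fin.val_zero, Fin.val_one,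
          Fin.val_two, pow_zero, pow_one]
        have h20 : ¬ ((2 : Fin 3) = 0) := by decide
        have h21 : ¬ ((2 : Fin 3) = 1) := by decide
        rw [if_neg h20, if_neg h21]
        push_cast
        field_simp
        ring
      rw [e, norm_div, Complex.norm_real, Real.norm_of_nonneg (by positivity),
        div_le_one (by positivity)]
      exact extremal w hw
    · rw [sum_filter_three _ 2 (Or.inr (Or.inl rfl))]
      simp only [OfNat.ofNat_ne_one, if_false, if_true, one_pow, mul_one, Fin.isValue,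
        one_ne_zero]
      rw [← Complex.ofReal_add, Complex.norm_real, Real.norm_of_nonneg (by positivity)]
      field_simp
      norm_num
  · rintro r ⟨a, m, n, z, -, hm, hP, hn1, hn3, hz, rfl⟩
    have h01 : m 0 < m 1 := hm (by decide)
    have h12 : m 1 < m 2 := hm (by decide)
    have hP' : ∀ w : ℂ, ‖w‖ = 1 → ‖a 0 * w ^ m 0 + a 1 * w ^ m 1 + a 2 * w ^ m 2‖ ≤ 1 := by
      intro w hw
      have := hP w hw
      rwa [Fin.sum_univ_three] at this
    have hb := bound_two (a 0) (a 1) (a 2) (m 0) (m 1) (m 2) h01 h12 hP'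
    have hzk : ∀ k : Fin 3, ‖a k * z ^ m k‖ = ‖a k‖ := fun k => by
      rw [norm_mul, norm_pow, hz, one_pow, mul_one]
    rw [sum_filter_three _ n (by omega)]
    split_ifs with h1 h2
    · rw [hzk 0]
      linarith [norm_nonneg (a 1)]
    · refine (norm_add_le _ _).trans ?_
      rw [hzk 0, hzk 1]
      exact hb
    · exact (hP' z hz).trans one_le_const

end Pool.Agent.Results.MP_9a0a6c_an.ThreeTerms
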